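import Mathlib

/-! The coordinate ring of the affine part of an elliptic curve is a Dedekind domain
(copied from Pool/Agent/Q36/QD/Ab1.lean, seat helper36). -/

namespace Pool.Agent.Q55.LM

open Polynomial
open WeierstrassCurve.Affine (CoordinateRing)
open WeierstrassCurve.Affine.CoordinateRing (mk exists_smul_basis_eq smul_basis_eq_zero)

/-- The short Weierstrass curve `Y² = X³ + A X + B` over `ℂ`. -/
def crv (A B : ℂ) : WeierstrassCurve.Affine ℂ := { a₁ := 0, a₂ := 0, a₃ := 0, a₄ := A, a₆ := B }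

variable (A B : ℂ)

/-- the coordinate ring -/
abbrev RR : Type := (crv A B).CoordinateRing

/-- `x³ + A x + B` -/
noncomputable def ff : ℂ[X] := X ^ 3 + C A * X + C B

/-- the class of `y` -/
noncomputable def yy : RR A B := mk (crv A B) X

variable {A B}

theorem ff_sep (hD : 4 * A ^ 3 + 27 * B ^ 2 ≠ 0) : (ff A B).Separable := by
  refine ⟨C (4 * A ^ 3 + 27 * B ^ 2)⁻¹ * (C (-18 * A) * X + C (27 * B)),
    C (4 * A ^ 3 + 27 * B ^ 2)⁻¹ * (C (6 * A) * X ^ 2 - C (9 * B) * X + C (4 * A ^ 2)), ?_⟩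
  have h1 : (C (-18 * A) * X + C (27 * B)) * ff A B +
      (C (6 * A) * X ^ 2 - C (9 * B) * X + C (4 * A ^ 2)) * derivative (ff A B) =
      C (4 * A ^ 3 + 27 * B ^ 2) := by
    simp only [ff, derivative_add, derivative_mul, derivative_X_pow, derivative_C, derivative_X,
      C_mul, C_add, C_neg, C_pow, map_ofNat]
    norm_num
    have h3 : (C (3 : ℂ) : ℂ[X]) = 3 := map_ofNat C 3
    rw [h3]
    ring
  have h2 : C (4 * A ^ 3 + 27 * B ^ 2)⁻¹ * C (4 * A ^ 3 + 27 * B ^ 2) = (1 : ℂ[X]) := by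
    rw [← C_mul, inv_mul_cancel₀ hD, C_1]
  rw [mul_assoc, mul_assoc, ← mul_add, h1, h2]

theorem ff_ne (hD : 4 * A ^ 3 + 27 * B ^ 2 ≠ 0) : ff A B ≠ 0 := (ff_sep hD).ne_zero

theorem dvd_of_sq {f q d : ℂ[X]} (hf : Squarefree f) (hd : d ≠ 0)
    (h : d ^ 2 ∣ q ^ 2 * f) : d ∣ q := by
  have hf0 : f ≠ 0 := hf.ne_zero
  obtain ⟨c, hc⟩ := h
  have h1 : d ^ 2 ∣ (q * f) ^ 2 := ⟨c * f, by linear_combination f * hc⟩
  rw [IsIntegrallyClosed.pow_dvd_pow_iff two_ne_zero] at h1
  obtain ⟨e, he⟩ := h1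
  have h2 : e ^ 2 = f * c := by
    apply mul_left_cancel₀ (pow_ne_zero 2 hd)
    linear_combination (-(q * f) - d * e) * he + f * hc
  have h3 : f ∣ e := (hf.dvd_pow_iff_dvd two_ne_zero).1 ⟨c, h2⟩
  obtain ⟨e', he'⟩ := h3
  refine ⟨e', mul_right_cancel₀ hf0 ?_⟩
  rw [he, he']; ring

theorem yy_sq : yy A B ^ 2 = algebraMap ℂ[X] (RR A B) (ff A B) := by
  have h : mk (crv A B) (X ^ 2 - C (ff A B)) = 0 := by
    rw [← AdjoinRoot.mk_self]
    congr 1
    simp only [WeierstrassCurve.Affine.polynomial, crv, ff]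
    simp
  rw [map_sub, sub_eq_zero, map_pow] at h
  exact h

theorem exists_form (r : RR A B) : ∃ p q : ℂ[X],
    r = algebraMap ℂ[X] (RR A B) p + algebraMap ℂ[X] (RR A B) q * yy A B := by
  obtain ⟨p, q, h⟩ := exists_smul_basis_eq r
  refine ⟨p, q, ?_⟩
  rw [← h, Algebra.smul_def, Algebra.smul_def, mul_one]
  rfl

theorem form_zero {p q : ℂ[X]}
    (h : algebraMap ℂ[X] (RR A B) p + algebraMap ℂ[X] (RR A B) q * yy A B = 0) :
    p = 0 ∧ q = 0 := by
  apply smul_basis_eq_zero (W' := crv A B)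
  rw [Algebra.smul_def, Algebra.smul_def, mul_one]
  exact h

/-- the involution -/
noncomputable def inv (A B : ℂ) : RR A B →ₐ[ℂ[X]] RR A B :=
  AdjoinRoot.liftAlgHom (crv A B).polynomial (Algebra.ofId ℂ[X] (RR A B)) (-yy A B) (by
    have h := yy_sq (A := A) (B := B)
    simp only [WeierstrassCurve.Affine.polynomial, crv]
    simp only [eval₂_sub, eval₂_add, eval₂_mul, eval₂_pow, eval₂_X, eval₂_C]
    simp only [map_zero, zero_mul, add_zero, neg_sq]
    rw [h, sub_eq_zero]
    simp only [ff]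
    rfl)

theorem inv_yy : inv A B (yy A B) = -yy A B := AdjoinRoot.liftAlgHom_root _ _ _ _

theorem inv_form (p q : ℂ[X]) :
    inv A B (algebraMap ℂ[X] (RR A B) p + algebraMap ℂ[X] (RR A B) q * yy A B) =
    algebraMap ℂ[X] (RR A B) p - algebraMap ℂ[X] (RR A B) q * yy A B := by
  rw [map_add, map_mul, AlgHom.commutes, AlgHom.commutes, inv_yy]
  ring

theorem inv_inv (r : RR A B) : inv A B (inv A B r) = r := by
  obtain ⟨p, q, rfl⟩ := exists_form r
  rw [inv_form, sub_eq_add_neg, ← neg_mul, ← map_neg, inv_form, map_neg]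
  ring

theorem inv_injective : Function.Injective (inv A B) := fun a b h => by
  rw [← inv_inv a, h, inv_inv]

theorem algMap_injective : Function.Injective (algebraMap ℂ[X] (RR A B)) :=
  FaithfulSMul.algebraMap_injective _ _

instance : Module.Finite ℂ[X] (RR A B) :=
  Module.Finite.of_basis (CoordinateRing.basis (crv A B))

instance : Algebra.IsIntegral ℂ[X] (RR A B) := Algebra.IsIntegral.of_finite _ _

section

variable {k : Type} [Field k] [Algebra ℂ[X] k] [Algebra (RR A B) k] [IsScalarTower ℂ[X] (RR A B) k]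
  [IsFractionRing (RR A B) k]

omit [IsFractionRing (RR A B) k] in
/-- a quotient of polynomials which is integral is a polynomial -/
theorem dvd_of_int [FaithfulSMul ℂ[X] k] {p d : ℂ[X]} (hd : d ≠ 0)
    (h : IsIntegral ℂ[X] (algebraMap ℂ[X] k p / algebraMap ℂ[X] k d)) : d ∣ p := by
  let := FractionRing.liftAlgebra ℂ[X] k
  have h1 : algebraMap ℂ[X] k p / algebraMap ℂ[X] k d =
      algebraMap (FractionRing ℂ[X]) k (algebraMap ℂ[X] (FractionRing ℂ[X]) p /
        algebraMap ℂ[X] (FractionRing ℂ[X]) d) := by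
    rw [map_div₀, ← IsScalarTower.algebraMap_apply, ← IsScalarTower.algebraMap_apply]
  rw [h1, isIntegral_algebraMap_iff (algebraMap (FractionRing ℂ[X]) k).injective] at h
  obtain ⟨c, hc⟩ := IsIntegrallyClosed.isIntegral_iff.1 h
  have hd' : algebraMap ℂ[X] (FractionRing ℂ[X]) d ≠ 0 := by
    rw [Ne, map_eq_zero_iff _ (IsFractionRing.injective ℂ[X] (FractionRing ℂ[X]))]
    exact hd
  rw [eq_div_iff hd', ← map_mul] at hc
  exact ⟨c, by rw [mul_comm]; exact (IsFractionRing.injective ℂ[X] (FractionRing ℂ[X]) hc).symm⟩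

theorem exists_quot (z : k) : ∃ p q d : ℂ[X], d ≠ 0 ∧
    z = (algebraMap ℂ[X] k p + algebraMap ℂ[X] k q * algebraMap (RR A B) k (yy A B)) /
      algebraMap ℂ[X] k d := by
  obtain ⟨r, s, hs, rfl⟩ := IsFractionRing.div_surjective (A := RR A B) z
  have hs0 : s ≠ 0 := nonZeroDivisors.ne_zero hs
  obtain ⟨p, q, hpq⟩ := exists_form s
  have h1 : s * inv A B s = algebraMap ℂ[X] (RR A B) (p ^ 2 - q ^ 2 * ff A B) := by
    rw [hpq, inv_form, map_sub, map_mul, map_pow, map_pow, ← yy_sq]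
    ring
  have h2 : inv A B s ≠ 0 := fun h => hs0 (inv_injective (by rw [h, map_zero]))
  have h3 : p ^ 2 - q ^ 2 * ff A B ≠ 0 := by
    intro h
    rw [h, map_zero] at h1
    exact (mul_ne_zero hs0 h2) h1
  obtain ⟨a, b, hab⟩ := exists_form (r * inv A B s)
  refine ⟨a, b, _, h3, ?_⟩
  have hinj := IsFractionRing.injective (RR A B) k
  have e1 : algebraMap (RR A B) k s ≠ 0 := by rw [Ne, map_eq_zero_iff _ hinj]; exact hs0
  have e2 : algebraMap (RR A B) k (inv A B s) ≠ 0 := by rw [Ne, map_eq_zero_iff _ hinj]; exact h2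
  have e3 : algebraMap ℂ[X] k (p ^ 2 - q ^ 2 * ff A B) =
      algebraMap (RR A B) k s * algebraMap (RR A B) k (inv A B s) := by
    rw [← map_mul, h1, ← IsScalarTower.algebraMap_apply]
  have e4 : algebraMap ℂ[X] k a + algebraMap ℂ[X] k b * algebraMap (RR A B) k (yy A B) =
      algebraMap (RR A B) k r * algebraMap (RR A B) k (inv A B s) := by
    rw [← map_mul, hab, map_add, map_mul, ← IsScalarTower.algebraMap_apply,
      ← IsScalarTower.algebraMap_apply]
  rw [e3, e4, mul_div_mul_right _ _ e2]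

/-- the integral elements are those of the coordinate ring -/
theorem mem_of_int (hD : 4 * A ^ 3 + 27 * B ^ 2 ≠ 0) {z : k} (h : IsIntegral ℂ[X] z) :
    ∃ r : RR A B, algebraMap (RR A B) k r = z := by
  have hinj := IsFractionRing.injective (RR A B) k
  have hfaith : FaithfulSMul ℂ[X] k := by
    rw [faithfulSMul_iff_algebraMap_injective, IsScalarTower.algebraMap_eq ℂ[X] (RR A B) k]
    exact hinj.comp algMap_injective
  obtain ⟨p, q, d, hd, rfl⟩ := exists_quot (A := A) (B := B) z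
  set y := algebraMap (RR A B) k (yy A B) with hy
  have hy2 : y ^ 2 = algebraMap ℂ[X] k (ff A B) := by
    rw [hy, ← map_pow, yy_sq, ← IsScalarTower.algebraMap_apply]
  have hd' : algebraMap ℂ[X] k d ≠ 0 := by
    rw [Ne, map_eq_zero_iff _ (FaithfulSMul.algebraMap_injective ℂ[X] k)]
    exact hd
  let g : RR A B →ₐ[ℂ[X]] k := (IsScalarTower.toAlgHom ℂ[X] (RR A B) k).comp (inv A B)
  have hg : Function.Injective g := hinj.comp inv_injective
  let τ : k →ₐ[ℂ[X]] k := IsFractionRing.liftAlgHom hg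
  have hτy : τ y = -y := by
    have h1 : τ y = g (yy A B) := IsFractionRing.lift_algebraMap hg _
    rw [h1]
    change algebraMap (RR A B) k (inv A B (yy A B)) = -y
    rw [inv_yy, map_neg]
  have hτ := h.map τ
  rw [map_div₀, map_add, map_mul, AlgHom.commutes, AlgHom.commutes, AlgHom.commutes, hτy] at hτ
  have hp : d ∣ p := by
    have h1 := h.add hτ
    have h2 : (algebraMap ℂ[X] k p + algebraMap ℂ[X] k q * y) / algebraMap ℂ[X] k d +
        (algebraMap ℂ[X] k p + algebraMap ℂ[X] k q * -y) / algebraMap ℂ[X] k d =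
        algebraMap ℂ[X] k (C 2 * p) / algebraMap ℂ[X] k d := by
      rw [map_mul]
      have : algebraMap ℂ[X] k (C 2) = 2 := by
        rw [show (C (2 : ℂ) : ℂ[X]) = 2 from map_ofNat C 2, map_ofNat]
      rw [this]
      ring
    rw [h2] at h1
    have h3 := dvd_of_int hd h1
    exact (IsUnit.dvd_mul_left (isUnit_C.2 (by norm_num))).1 h3
  obtain ⟨p', rfl⟩ := hp
  have hq : d ∣ q := by
    apply dvd_of_sq (ff_sep hD).squarefree hd
    have h1 := (h.sub (isIntegral_algebraMap (R := ℂ[X]) (A := k) (x := p'))).pow 2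
    have h2 : ((algebraMap ℂ[X] k (d * p') + algebraMap ℂ[X] k q * y) / algebraMap ℂ[X] k d -
        algebraMap ℂ[X] k p') ^ 2 = algebraMap ℂ[X] k (q ^ 2 * ff A B) / algebraMap ℂ[X] k (d ^ 2) := by
      rw [map_mul, map_mul, map_pow, map_pow, ← hy2]
      field_simp
      ring
    rw [h2] at h1
    exact dvd_of_int (pow_ne_zero 2 hd) h1
  obtain ⟨q', rfl⟩ := hq
  refine ⟨algebraMap ℂ[X] (RR A B) p' + algebraMap ℂ[X] (RR A B) q' * yy A B, ?_⟩
  rw [map_add, map_mul, ← IsScalarTower.algebraMap_apply, ← IsScalarTower.algebraMap_apply, map_mul,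
    map_mul]
  field_simp
  rw [hy]

end

theorem isIntegralClosure (hD : 4 * A ^ 3 + 27 * B ^ 2 ≠ 0) :
    IsIntegralClosure (RR A B) ℂ[X] (FractionRing (RR A B)) where
  algebraMap_injective := IsFractionRing.injective _ _
  isIntegral_iff {z} := by
    constructor
    · exact mem_of_int hD
    · rintro ⟨r, rfl⟩
      exact (Algebra.IsIntegral.isIntegral (R := ℂ[X]) r).map
        (IsScalarTower.toAlgHom ℂ[X] (RR A B) (FractionRing (RR A B)))

theorem dedekind (hD : 4 * A ^ 3 + 27 * B ^ 2 ≠ 0) : IsDedekindDomain (RR A B) := by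
  have := isIntegralClosure (A := A) (B := B) hD
  let := FractionRing.liftAlgebra ℂ[X] (FractionRing (RR A B))
  exact IsIntegralClosure.isDedekindDomain ℂ[X] (FractionRing ℂ[X]) (FractionRing (RR A B)) (RR A B)

end Pool.Agent.Q55.LM
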