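import Pool.Agent.Q55.LM.Base

/-! Project LM (helper55), full answer to MP_b8f3cd_ag: definitions. -/

namespace Pool.Agent.Q55.LM

open Module

/-- A filtered `ℂ`-algebra of genus one: `deg` is the order of the pole at one point, `fil i` the
space of the elements with a pole of order at most `i`. The model is `RR A B`. -/
structure Gen1 (B : Type) [CommRing B] [Algebra ℂ B] where
  /-- the filtration by the order of the pole -/
  fil : ℕ → Submodule ℂ B
  /-- the order of the pole -/
  deg : B → ℕ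
  mem_fil : ∀ i b, b ∈ fil i ↔ deg b ≤ i
  deg_mul : ∀ a b, a ≠ 0 → b ≠ 0 → deg (a * b) = deg a + deg b
  finrank_fil : ∀ i, 1 ≤ i → finrank ℂ (fil i) = i
  finrank_fil_zero : finrank ℂ (fil 0) = 1
  fin_quot : ∀ b : B, b ≠ 0 → Module.Finite ℂ (B ⧸ Ideal.span ({b} : Set B))
  finrank_quot : ∀ b : B, b ≠ 0 → finrank ℂ (B ⧸ Ideal.span ({b} : Set B)) = deg b

variable {B : Type} [CommRing B] [Algebra ℂ B]

namespace Gen1

/-- the largest degree of an element of a subspace -/
noncomputable def top (g : Gen1 B) (V : Submodule ℂ B) : ℕ := sSup (g.deg '' (V : Set B))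

/-- the degree of the moving part of a linear system -/
noncomputable def mu (g : Gen1 B) (V : Submodule ℂ B) : ℤ :=
  (g.top V : ℤ) - (finrank ℂ (B ⧸ Ideal.span (V : Set B)) : ℤ)

theorem deg_zero (g : Gen1 B) : g.deg 0 = 0 :=
  Nat.le_zero.1 ((g.mem_fil 0 0).1 (g.fil 0).zero_mem)

theorem fil_mono (g : Gen1 B) {i j : ℕ} (h : i ≤ j) : g.fil i ≤ g.fil j := fun b hb =>
  (g.mem_fil j b).2 (((g.mem_fil i b).1 hb).trans h)

theorem mul_mem (g : Gen1 B) {i j : ℕ} {a b : B} (ha : a ∈ g.fil i) (hb : b ∈ g.fil j) :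
    a * b ∈ g.fil (i + j) := by
  by_cases ha0 : a = 0
  · rw [ha0, zero_mul]; exact Submodule.zero_mem _
  by_cases hb0 : b = 0
  · rw [hb0, mul_zero]; exact Submodule.zero_mem _
  rw [g.mem_fil] at *
  rw [g.deg_mul a b ha0 hb0]
  omega

theorem one_mem (g : Gen1 B) (i : ℕ) : (1 : B) ∈ g.fil i := by
  by_cases h : (1 : B) = 0
  · rw [h]; exact Submodule.zero_mem _
  · have h1 := g.deg_mul 1 1 h h
    rw [one_mul] at h1
    rw [g.mem_fil]
    omega

end Gen1

/-- The completed graded ring `∏_j fil (n j) τ ^ j`, a subring of `B[[τ]]`. -/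
noncomputable def SR (g : Gen1 B) (n : ℕ) : Subalgebra ℂ (PowerSeries B) where
  carrier := {s | ∀ j, PowerSeries.coeff j s ∈ g.fil (n * j)}
  mul_mem' := by
    intro a b ha hb j
    rw [PowerSeries.coeff_mul]
    refine Submodule.sum_mem _ fun p hp => ?_
    have h := g.mul_mem (ha p.1) (hb p.2)
    rw [← mul_add, Finset.HasAntidiagonal.mem_antidiagonal.1 hp] at h
    exact h
  add_mem' := by
    intro a b ha hb j
    rw [map_add]
    exact Submodule.add_mem _ (ha j) (hb j)
  algebraMap_mem' := by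
    intro r j
    rw [PowerSeries.algebraMap_apply, PowerSeries.coeff_C]
    split_ifs
    · rw [Algebra.algebraMap_eq_smul_one]
      exact Submodule.smul_mem _ _ (g.one_mem _)
    · exact Submodule.zero_mem _

/-- The ring `S[[T]]`, where `S = SR g n`. -/
abbrev AR (g : Gen1 B) (n : ℕ) : Type := PowerSeries (SR g n)

/-- the coefficient of `τ ^ j T ^ k` -/
noncomputable def cf (g : Gen1 B) (n : ℕ) (k j : ℕ) : AR g n →ₗ[ℂ] B where
  toFun a := PowerSeries.coeff j ((PowerSeries.coeff k a : SR g n) : PowerSeries B)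
  map_add' := by
    intro a b
    rw [map_add, Subalgebra.coe_add, map_add]
  map_smul' := by
    intro r a
    rfl

/-- the elements of `S[[T]]` all of whose coefficients before `(k, j)` in the lexicographic order
are zero -/
def FF (g : Gen1 B) (n : ℕ) (k j : ℕ) : Submodule ℂ (AR g n) where
  carrier := {a | (∀ k' j', k' < k → cf g n k' j' a = 0) ∧ ∀ j' < j, cf g n k j' a = 0}
  zero_mem' := ⟨fun _ _ _ => map_zero _, fun _ _ => map_zero _⟩
  add_mem' := by
    intro a b ha hb
    refine ⟨fun k' j' h => ?_, fun j' h => ?_⟩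
    · rw [map_add, ha.1 k' j' h, hb.1 k' j' h, add_zero]
    · rw [map_add, ha.2 j' h, hb.2 j' h, add_zero]
  smul_mem' := by
    intro r a ha
    refine ⟨fun k' j' h => ?_, fun j' h => ?_⟩
    · rw [map_smul, ha.1 k' j' h, smul_zero]
    · rw [map_smul, ha.2 j' h, smul_zero]

/-- the space of the leading coefficients at `(k, j)` of the elements of an ideal -/
noncomputable def VV (g : Gen1 B) (n : ℕ) (I : Ideal (AR g n)) (k j : ℕ) : Submodule ℂ B :=
  ((I.restrictScalars ℂ) ⊓ FF g n k j).map (cf g n k j)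

/-- the ideal contains all the elements without coefficients in the box `k, j < N` -/
def Near (g : Gen1 B) (n N : ℕ) (I : Ideal (AR g n)) : Prop :=
  ∀ a : AR g n, (∀ k < N, ∀ j < N, cf g n k j a = 0) → a ∈ I

/-- the points of the cone with a nonempty linear system of moving degree `q` in degree `j` -/
def Valid (n : ℕ) (P : ℕ × ℕ) : Prop := P.2 = 0 ∨ (2 ≤ P.2 ∧ P.2 ≤ n * P.1)

/-- `ℂ[[x, y, z]] / (f)` -/
abbrev Rf (f : MvPolynomial (Fin 3) ℂ) : Type :=
  MvPowerSeries (Fin 3) ℂ ⧸ Ideal.span {(f : MvPowerSeries (Fin 3) ℂ)}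

end Pool.Agent.Q55.LM
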