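import Pool.Agent.Q55.LM.Stm

/-! Project LM (helper55): the Lech–Mumford constant and the final assembly. -/

namespace Pool.Agent.Q55.LM

open Module Filter
open scoped ENNReal Topology

/-- The Krull dimension of a ring, as a natural number. -/
noncomputable def kdim (A : Type) [CommRing A] : ℕ := ((ringKrullDim A).unbotD 0).toNat

/-- The Hilbert–Samuel multiplicity `e(I) = lim d! ℓ(A / I ^ m) / m ^ d`, `d = dim A`, of an ideal
(for an ideal primary to the maximal ideal of a Noetherian local ring the limit exists; we take the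
upper limit, which makes sense for every ideal). -/
noncomputable def hsMult (A : Type) [CommRing A] (I : Ideal A) : ℝ≥0∞ :=
  limsup (fun m : ℕ => ((kdim A).factorial : ℝ≥0∞) *
    ((Module.length A (A ⧸ I ^ m) : ℕ∞) : ℝ≥0∞) / (m : ℝ≥0∞) ^ kdim A) atTop

/-- The Lech–Mumford constant of a local ring `A`: the supremum of `e(I) / (d! ℓ(A / I))` over the
ideals `I` whose radical is the maximal ideal. -/
noncomputable def lechMumford (A : Type) [CommRing A] : ℝ≥0∞ :=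
  ⨆ (I : Ideal A) (_ : I.radical.IsMaximal),
    hsMult A I / (((kdim A).factorial : ℝ≥0∞) * ((Module.length A (A ⧸ I) : ℕ∞) : ℝ≥0∞))

/-- power series over isomorphic algebras -/
noncomputable def psEquiv {R S : Type} [CommRing R] [CommRing S] [Algebra ℂ R] [Algebra ℂ S]
    (e : R ≃ₐ[ℂ] S) : PowerSeries R ≃ₐ[ℂ] PowerSeries S :=
  AlgEquiv.ofAlgHom (PowerSeries.mapAlgHom (e : R →ₐ[ℂ] S))
    (PowerSeries.mapAlgHom (e.symm : S →ₐ[ℂ] R))
    (AlgHom.ext fun a => PowerSeries.ext fun k => by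
      simp [PowerSeries.mapAlgHom_apply])
    (AlgHom.ext fun a => PowerSeries.ext fun k => by
      simp [PowerSeries.mapAlgHom_apply])

theorem limsup_up (c K : ℕ) (a : ℕ → ℕ) (h : ∀ m, 1 ≤ m → a m ≤ m ^ 3 * c + K * m ^ 2) :
    limsup (fun m : ℕ => (6 : ℝ≥0∞) * (a m : ℝ≥0∞) / (m : ℝ≥0∞) ^ 3) atTop ≤ 6 * c := by
  have h1 : Tendsto (fun m : ℕ => (6 : ℝ≥0∞) * c + 6 * K * (m : ℝ≥0∞)⁻¹) atTop
      (𝓝 ((6 : ℝ≥0∞) * c + 6 * K * 0)) := by
    refine tendsto_const_nhds.add (ENNReal.Tendsto.const_mul ENNReal.tendsto_inv_nat_nhds_zero ?_)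
    right
    exact ENNReal.mul_ne_top (by norm_num) (ENNReal.natCast_ne_top K)
  rw [mul_zero, add_zero] at h1
  rw [← h1.limsup_eq]
  refine limsup_le_limsup ?_
  filter_upwards [eventually_ge_atTop 1] with m hm
  have hm0 : (m : ℝ≥0∞) ≠ 0 := by
    rw [Nat.cast_ne_zero]; omega
  have hmt : (m : ℝ≥0∞) ≠ ∞ := ENNReal.natCast_ne_top m
  have h3 : ((a m : ℕ) : ℝ≥0∞) ≤ (m : ℝ≥0∞) ^ 3 * c + K * (m : ℝ≥0∞) ^ 2 := by
    have := h m hm
    exact_mod_cast this
  rw [ENNReal.div_le_iff (pow_ne_zero 3 hm0) (ENNReal.pow_ne_top hmt)]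
  calc (6 : ℝ≥0∞) * (a m : ℝ≥0∞) ≤ 6 * ((m : ℝ≥0∞) ^ 3 * c + K * (m : ℝ≥0∞) ^ 2) := by gcongr
    _ = ((6 : ℝ≥0∞) * c + 6 * K * (m : ℝ≥0∞)⁻¹) * (m : ℝ≥0∞) ^ 3 := by
      have h4 : (m : ℝ≥0∞)⁻¹ * (m : ℝ≥0∞) ^ 3 = (m : ℝ≥0∞) ^ 2 := by
        rw [pow_succ' (m : ℝ≥0∞) 2, ← mul_assoc, ENNReal.inv_mul_cancel hm0 hmt, one_mul]
      rw [add_mul, mul_assoc (6 * (K : ℝ≥0∞)), h4]
      ring

theorem limsup_low (c : ℕ) (a : ℕ → ℕ) (h : ∀ m, 1 ≤ m → c * m ^ 3 ≤ 6 * a m) :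
    (c : ℝ≥0∞) ≤ limsup (fun m : ℕ => (6 : ℝ≥0∞) * (a m : ℝ≥0∞) / (m : ℝ≥0∞) ^ 3) atTop := by
  have h1 : limsup (fun _ : ℕ => (c : ℝ≥0∞)) atTop = c := limsup_const _
  rw [← h1]
  refine limsup_le_limsup ?_
  filter_upwards [eventually_ge_atTop 1] with m hm
  have hm0 : (m : ℝ≥0∞) ≠ 0 := by
    rw [Nat.cast_ne_zero]; omega
  have hmt : (m : ℝ≥0∞) ≠ ∞ := ENNReal.natCast_ne_top m
  rw [ENNReal.le_div_iff_mul_le (Or.inl (pow_ne_zero 3 hm0)) (Or.inl (ENNReal.pow_ne_top hmt))]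
  have := h m hm
  exact_mod_cast this

section

variable {B : Type} [CommRing B] [IsDedekindDomain B] [Algebra ℂ B] {g : Gen1 B} {n : ℕ}
variable {A : Type} [CommRing A] [IsLocalRing A] [Algebra ℂ A]

omit [IsDedekindDomain B] in
theorem cf_one (g : Gen1 B) (n : ℕ) : cf g n 0 0 1 = 1 := by
  simp [cf]

omit [IsDedekindDomain B] in
theorem cf_mul (g : Gen1 B) (n : ℕ) (a b : AR g n) :
    cf g n 0 0 (a * b) = cf g n 0 0 a * cf g n 0 0 b := by
  simp [cf]

omit [IsDedekindDomain B] in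
theorem nonunit [Nontrivial B] (a : AR g n) (ha : cf g n 0 0 a = 0) : ¬ IsUnit a := by
  intro h
  obtain ⟨b, hb⟩ := h.exists_right_inv
  have h1 := cf_mul g n a b
  rw [hb, ha, zero_mul, cf_one] at h1
  exact one_ne_zero h1

/-- the radical condition, transported -/
theorem rad_transport (E : A ≃ₐ[ℂ] AR g n) (I : Ideal A) (hI : I.radical.IsMaximal)
    (a : AR g n) (ha : cf g n 0 0 a = 0) : a ∈ (I.map (E : A →+* AR g n)).radical := by
  have h1 : ¬ IsUnit (E.symm a) := fun h => nonunit a ha (by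
    have := h.map E
    rwa [E.apply_symm_apply] at this)
  have h2 : E.symm a ∈ I.radical := by
    rw [IsLocalRing.eq_maximalIdeal hI]
    exact h1
  obtain ⟨k, hk⟩ := h2
  refine ⟨k, ?_⟩
  have h3 := Ideal.mem_map_of_mem (E : A →+* AR g n) hk
  rw [map_pow] at h3
  simpa using h3

omit [IsDedekindDomain B] [IsLocalRing A] in
theorem finrank_transport (E : A ≃ₐ[ℂ] AR g n) (I : Ideal A) :
    finrank ℂ (A ⧸ I) = finrank ℂ (AR g n ⧸ I.map (E : A →+* AR g n)) :=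
  (Ideal.quotientEquivAlg I (I.map (E : A →+* AR g n)) E rfl).toLinearEquiv.finrank_eq

omit [IsDedekindDomain B] [IsLocalRing A] in
theorem finite_transport (E : A ≃ₐ[ℂ] AR g n) (I : Ideal A)
    (h : Module.Finite ℂ (AR g n ⧸ I.map (E : A →+* AR g n))) : Module.Finite ℂ (A ⧸ I) :=
  Module.Finite.equiv (Ideal.quotientEquivAlg I (I.map (E : A →+* AR g n)) E rfl).toLinearEquiv.symm

theorem length_fin (hl : S_Lfn) (hres : ∀ a : A, ∃ z : ℂ, ¬ IsUnit (a - algebraMap ℂ A z))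
    (I : Ideal A) (h : Module.Finite ℂ (A ⧸ I)) :
    ((Module.length A (A ⧸ I) : ℕ∞) : ℝ≥0∞) = (finrank ℂ (A ⧸ I) : ℝ≥0∞) := by
  rw [hl A hres I, Module.length_eq_finrank]
  simp

end

theorem fil_zero {B : Type} [CommRing B] [Nontrivial B] [Algebra ℂ B] (g : Gen1 B) {b : B}
    (hb : b ∈ g.fil 0) : ∃ c : ℂ, b = algebraMap ℂ B c := by
  have h1 : (⟨1, g.one_mem 0⟩ : g.fil 0) ≠ 0 := by
    intro h
    exact one_ne_zero (congrArg Subtype.val h)
  obtain ⟨c, hc⟩ := (finrank_eq_one_iff_of_nonzero' _ h1).1 g.finrank_fil_zero ⟨b, hb⟩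
  refine ⟨c, ?_⟩
  have h2 := congrArg Subtype.val hc
  rw [Algebra.algebraMap_eq_smul_one]
  exact h2.symm

theorem cf_scalar {B : Type} [CommRing B] [Algebra ℂ B] (g : Gen1 B) (n : ℕ) (c : ℂ) :
    cf g n 0 0 (algebraMap ℂ (AR g n) c) = algebraMap ℂ B c := by
  rw [Algebra.algebraMap_eq_smul_one, map_smul, cf_one, ← Algebra.algebraMap_eq_smul_one]

theorem cf_of_nonunit {B : Type} [CommRing B] [Nontrivial B] [Algebra ℂ B] {g : Gen1 B} {n : ℕ}
    {A : Type} [CommRing A] [IsLocalRing A] [Algebra ℂ A] (E : A ≃ₐ[ℂ] AR g n) (a : A)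
    (ha : ¬ IsUnit a) : cf g n 0 0 (E a) = 0 := by
  obtain ⟨c, hc⟩ := fil_zero g (b := cf g n 0 0 (E a)) (by
    have := (PowerSeries.coeff 0 (E a) : SR g n).2 0
    rw [mul_zero] at this
    exact this)
  have h1 : cf g n 0 0 (E (a - algebraMap ℂ A c)) = 0 := by
    rw [map_sub, map_sub, AlgEquiv.commutes, cf_scalar, hc, sub_self]
  have h2 : ¬ IsUnit (a - algebraMap ℂ A c) := fun h => nonunit _ h1 (h.map E)
  have h3 : ¬ IsUnit (algebraMap ℂ A c) := by
    have h4 : algebraMap ℂ A c = a - (a - algebraMap ℂ A c) := by ring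
    rw [h4]
    have h5 : a ∈ IsLocalRing.maximalIdeal A := ha
    have h6 : a - algebraMap ℂ A c ∈ IsLocalRing.maximalIdeal A := h2
    exact (IsLocalRing.maximalIdeal A).sub_mem h5 h6
  have h4 : c = 0 := by
    by_contra hc0
    exact h3 ((IsUnit.mk0 c hc0).map _)
  rw [hc, h4, map_zero]

/-- the conclusion of `S_Asm` -/
def S_Up : Prop :=
  ∀ (B : Type) [CommRing B] [IsDedekindDomain B] [Algebra ℂ B] (g : Gen1 B) (n : ℕ),
  1 ≤ n → n ≤ 3 → ∀ I : Ideal (AR g n), (∀ a : AR g n, cf g n 0 0 a = 0 → a ∈ I.radical) →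
    Module.Finite ℂ (AR g n ⧸ I) ∧ (∀ m, Module.Finite ℂ (AR g n ⧸ I ^ m)) ∧
    ∃ K : ℕ, ∀ m : ℕ, 1 ≤ m →
      finrank ℂ (AR g n ⧸ I ^ m) ≤ m ^ 3 * finrank ℂ (AR g n ⧸ I) + K * m ^ 2

theorem lm_up (hup : S_Up) (hl : S_Lfn) {B : Type} [CommRing B] [IsDedekindDomain B] [Algebra ℂ B]
    {g : Gen1 B} {n : ℕ} {A : Type} [CommRing A] [IsLocalRing A] [Algebra ℂ A]
    (h1 : 1 ≤ n) (h3 : n ≤ 3) (hres : ∀ a : A, ∃ z : ℂ, ¬ IsUnit (a - algebraMap ℂ A z))
    (hd : kdim A = 3) (E : A ≃ₐ[ℂ] AR g n) : lechMumford A ≤ 1 := by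
  unfold lechMumford
  refine iSup₂_le fun I hI => ?_
  obtain ⟨f1, fm, K, hK⟩ := hup B g n h1 h3 (I.map (E : A →+* AR g n))
    (fun a ha => rad_transport E I hI a ha)
  have e1 : ∀ m, finrank ℂ (A ⧸ I ^ m) =
      finrank ℂ (AR g n ⧸ (I.map (E : A →+* AR g n)) ^ m) := fun m => by
    rw [finrank_transport E, Ideal.map_pow]
  have e2 : ∀ m, Module.Finite ℂ (A ⧸ I ^ m) := fun m =>
    finite_transport E _ (by rw [Ideal.map_pow]; exact fm m)
  have e3 : hsMult A I ≤ 6 * (finrank ℂ (A ⧸ I) : ℝ≥0∞) := by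
    have h4 := limsup_up (finrank ℂ (A ⧸ I)) K (fun m => finrank ℂ (A ⧸ I ^ m))
      (fun m hm => by rw [e1 m, finrank_transport E I]; exact hK m hm)
    refine le_trans (le_of_eq ?_) h4
    unfold hsMult
    rw [hd]
    refine congrArg (fun u => limsup u atTop) (funext fun m => ?_)
    rw [length_fin hl hres _ (e2 m)]
    norm_num [Nat.factorial]
  rw [hd, length_fin hl hres I (finite_transport E I f1)]
  refine ENNReal.div_le_of_le_mul ?_
  rw [one_mul]
  refine e3.trans (le_of_eq ?_)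
  norm_num [Nat.factorial]

theorem lm_low (hlow : S_Low) (hup : S_Up) (hl : S_Lfn) {B : Type} [CommRing B]
    [IsDedekindDomain B] [Algebra ℂ B]
    {g : Gen1 B} {n : ℕ} {A : Type} [CommRing A] [IsLocalRing A] [Algebra ℂ A]
    (h1 : 1 ≤ n) (h3 : n ≤ 3) (hres : ∀ a : A, ∃ z : ℂ, ¬ IsUnit (a - algebraMap ℂ A z))
    (hd : kdim A = 3) (E : A ≃ₐ[ℂ] AR g n) : 1 ≤ lechMumford A := by
  obtain ⟨IN, hrad, hne, hpow, hfin, hcard⟩ := hlow B g n h1
  have key : ∀ N : ℕ, 1 ≤ N → ((n * N ^ 3 : ℕ) : ℝ≥0∞) / ((n * N ^ 3 + 6 * N : ℕ) : ℝ≥0∞) ≤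
      lechMumford A := by
    intro N hN
    set I : Ideal A := (IN N).map (E.symm : AR g n →+* A) with hIdef
    have hI : I.map (E : A →+* AR g n) = IN N := by
      rw [hIdef, Ideal.map_map]
      have : (E : A →+* AR g n).comp (E.symm : AR g n →+* A) = RingHom.id _ :=
        RingHom.ext fun a => E.apply_symm_apply a
      rw [this, Ideal.map_id]
    have hmax : I.radical = IsLocalRing.maximalIdeal A := by
      apply le_antisymm
      · refine (Ideal.IsPrime.radical_le_iff (IsLocalRing.maximalIdeal.isMaximal A).isPrime).2 ?_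
        apply IsLocalRing.le_maximalIdeal
        intro htop
        apply hne N hN
        rw [← hI, htop, Ideal.map_top]
      · intro a ha
        obtain ⟨k, hk⟩ := hrad N (E a) (cf_of_nonunit E a ha)
        refine ⟨k, ?_⟩
        have h3 := Ideal.mem_map_of_mem (E.symm : AR g n →+* A) hk
        rw [map_pow] at h3
        simpa using h3
    have hI' : I.radical.IsMaximal := by rw [hmax]; exact IsLocalRing.maximalIdeal.isMaximal A
    refine le_trans ?_ (le_iSup₂ (f := fun (I : Ideal A) (_ : I.radical.IsMaximal) =>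
      hsMult A I / (((kdim A).factorial : ℝ≥0∞) * ((Module.length A (A ⧸ I) : ℕ∞) : ℝ≥0∞))) I hI')
    obtain ⟨f1, fm, K, hK⟩ := hup B g n h1 h3 (I.map (E : A →+* AR g n))
      (fun a ha => rad_transport E I hI' a ha)
    have e1 : ∀ m, finrank ℂ (A ⧸ I ^ m) = finrank ℂ (AR g n ⧸ (IN N) ^ m) := fun m => by
      rw [finrank_transport E, Ideal.map_pow, hI]
    have e2 : ∀ m, Module.Finite ℂ (A ⧸ I ^ m) := fun m =>
      finite_transport E _ (by rw [Ideal.map_pow]; exact fm m)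
    have e3 : ((n * N ^ 3 : ℕ) : ℝ≥0∞) ≤ hsMult A I := by
      have h4 := limsup_low (n * N ^ 3) (fun m => finrank ℂ (A ⧸ I ^ m)) (fun m hm => by
        have h5 : finrank ℂ (AR g n ⧸ IN (N * m)) ≤ finrank ℂ (A ⧸ I ^ m) := by
          rw [e1 m]
          have h6 : Module.Finite ℂ (AR g n ⧸ (IN N) ^ m) := by
            rw [← hI]; exact fm m
          exact (Submodule.factor (hpow N m)).restrictScalars ℂ |>.finrank_le_finrank_of_surjective
            (Submodule.factor_surjective (hpow N m))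
        have h7 := hcard (N * m)
        have h8 : n * (N * m) ≤ 6 * (N * m) := Nat.mul_le_mul_right _ (by omega)
        have h9 : n * (N * m) ^ 3 = n * N ^ 3 * m ^ 3 := by ring
        omega)
      refine le_trans h4 (le_of_eq ?_)
      unfold hsMult
      rw [hd]
      refine congrArg (fun u => limsup u atTop) (funext fun m => ?_)
      rw [length_fin hl hres _ (e2 m)]
      norm_num [Nat.factorial]
    rw [hd, length_fin hl hres I (finite_transport E I f1), finrank_transport E I, hI]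
    refine ENNReal.div_le_div e3 ?_
    have h7 := hcard N
    have h8 : 6 * finrank ℂ (AR g n ⧸ IN N) ≤ n * N ^ 3 + 6 * N := by omega
    norm_num [Nat.factorial]
    exact_mod_cast h8
  by_cases htop : lechMumford A = ∞
  · rw [htop]; exact le_top
  have hreal : ∀ N : ℕ, 1 ≤ N → (n * (N : ℝ) ^ 2 : ℝ) ≤
      (lechMumford A).toReal * (n * (N : ℝ) ^ 2 + 6) := by
    intro N hN
    have h4 := key N hN
    have h5 : ((n * N ^ 3 + 6 * N : ℕ) : ℝ≥0∞) ≠ 0 := by
      rw [Nat.cast_ne_zero]; omega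
    rw [ENNReal.div_le_iff h5 (ENNReal.natCast_ne_top _)] at h4
    have h6 := ENNReal.toReal_mono (ENNReal.mul_ne_top htop (ENNReal.natCast_ne_top _)) h4
    rw [ENNReal.toReal_mul, ENNReal.toReal_natCast, ENNReal.toReal_natCast] at h6
    push_cast at h6
    have hN' : (0 : ℝ) < N := by exact_mod_cast hN
    have h7 : (N : ℝ) * (n * (N : ℝ) ^ 2) ≤
        N * ((lechMumford A).toReal * (n * (N : ℝ) ^ 2 + 6)) := by nlinarith
    exact le_of_mul_le_mul_left h7 hN'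
  rw [← ENNReal.ofReal_toReal htop, ← ENNReal.ofReal_one]
  apply ENNReal.ofReal_le_ofReal
  by_contra hlt
  push Not at hlt
  set L := (lechMumford A).toReal
  obtain ⟨N, hN⟩ := exists_nat_gt (6 * L / (1 - L) + 1)
  have hL0 : 0 ≤ L := ENNReal.toReal_nonneg
  have h9 : 0 < 1 - L := by linarith
  have h10 : 0 ≤ 6 * L / (1 - L) := by positivity
  have hN1 : (1 : ℝ) < N := by linarith
  have hN2 : 1 ≤ N := by exact_mod_cast hN1.le
  have h11 := hreal N hN2
  have h12 : 6 * L / (1 - L) < N := by linarith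
  rw [div_lt_iff₀ h9] at h12
  have hn : (1 : ℝ) ≤ n := by exact_mod_cast h1
  have h13 : (N : ℝ) * (1 - L) ≤ n * (N : ℝ) ^ 2 * (1 - L) := by
    apply mul_le_mul_of_nonneg_right _ h9.le
    nlinarith
  nlinarith

end Pool.Agent.Q55.LM
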