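import Pool.Agent.Q55.LM.Fin

/-! Project LM (helper55): the final statement, from the lemma jobs. -/

namespace Pool.Agent.Q55.LM

open Module Filter
open scoped ENNReal Topology

/-- a point of the affine curve -/
theorem exists_ev (A B : ℂ) : Nonempty (RR A B →ₐ[ℂ] ℂ) := by
  obtain ⟨s, hs⟩ := IsAlgClosed.exists_pow_nat_eq B (n := 2) two_pos
  have h : Polynomial.eval₂ (Polynomial.evalRingHom (0 : ℂ)) s (crv A B).polynomial = 0 := by
    simp only [WeierstrassCurve.Affine.polynomial, crv]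
    simp only [Polynomial.eval₂_sub, Polynomial.eval₂_add, Polynomial.eval₂_mul,
      Polynomial.eval₂_pow, Polynomial.eval₂_X, Polynomial.eval₂_C]
    simp [hs]
  exact ⟨{ toRingHom := AdjoinRoot.lift (Polynomial.evalRingHom (0 : ℂ)) s h
           commutes' := fun r => by
            have e : algebraMap ℂ (RR A B) r =
              AdjoinRoot.of (crv A B).polynomial (Polynomial.C r) := rfl
            show AdjoinRoot.lift (Polynomial.evalRingHom (0 : ℂ)) s h (algebraMap ℂ (RR A B) r) = r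
            rw [e, AdjoinRoot.lift_of]
            simp }⟩

theorem fam_result (hup : S_Up) (hlow : S_Low) (hl : S_Lfn) (hloc : S_Loc) (hk : S_KLow)
    {f : MvPolynomial (Fin 3) ℂ} (hf0 : f.coeff 0 = 0)
    (hu : ringKrullDim (PowerSeries (Rf f)) ≤ 3) {n : ℕ} (h1 : 1 ≤ n) (h3 : n ≤ 3)
    (hfam : FamOK f n) : IsLocalRing (PowerSeries (Rf f)) ∧
      ringKrullDim (PowerSeries (Rf f)) = 3 ∧ lechMumford (PowerSeries (Rf f)) = 1 := by
  obtain ⟨A, B, hD, g, ⟨e⟩⟩ := hfam
  obtain ⟨ev⟩ := exists_ev A B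
  have hded := dedekind hD
  obtain ⟨hlocal, hres⟩ := hloc f hf0
  have hd2 : 2 ≤ ringKrullDim (Rf f) := by
    rw [ringKrullDim_eq_of_ringEquiv e.toRingEquiv]
    exact hk (RR A B) g n h1 ev
  have hdim : ringKrullDim (PowerSeries (Rf f)) = 3 := by
    apply le_antisymm hu
    refine le_trans ?_ (ringKrullDim_succ_le_ringKrullDim_powerseries (R := Rf f))
    calc (3 : WithBot ℕ∞) = 2 + 1 := by norm_num
      _ ≤ _ := by gcongr
  have hd : kdim (PowerSeries (Rf f)) = 3 := by
    unfold kdim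
    rw [hdim]
    rfl
  exact ⟨hlocal, hdim, le_antisymm (lm_up hup hl h1 h3 hres hd (psEquiv e))
    (lm_low hlow hup hl h1 h3 hres hd (psEquiv e))⟩

end Pool.Agent.Q55.LM
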