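import Pool.Agent.Q55.LM.Defs

/-! Project LM (helper55): FULL ANSWER (YES) to MP_b8f3cd_ag. Statements of the lemma jobs, with
complete proofs in the docstrings.

Overview. `B` is the ring of functions on an elliptic curve minus a point, `fil i` the functions with
a pole of order `≤ i`; `R_f` is isomorphic to `S = ∏_j fil (n j) τ ^ j`, `n = 1, 2, 3`, and
`A = S[[T]]`. For an ideal `I` of `A`, `V_{kj}(I) ⊆ fil (n j)` is the space of leading coefficients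
at `τ ^ j T ^ k` (lexicographic order, `k` first). Then
`dim A / I = ∑ (dim fil (n j) - dim V_{kj})`, and `V(I ^ m)` contains products of `V(I)`.
For a finite-dimensional `V ≠ 0` put `mu V = (largest degree in V) - dim B / V B` (degree of the
moving part). `mu` is additive and monotone, `dim V ≤ mu V` if `dim V ≥ 2` (genus one), and
`dim (V_1 ⋯ V_r · fil c) ≥ ∑ mu V_i + c` for large `c` (base point free pencil trick). The rest is
a combinatorial inequality proved with a unimodular triangulation of a plane cone. -/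

namespace Pool.Agent.Q55.LM

open Module

/-- **FQ.** Dimensions of quotients are additive in a Dedekind domain. PROOF. `I * J ≠ ⊥`, `I * J`
contains a nonzero element `b`, so `B / IJ` is a quotient of `B / (b)`: finite. By
`IsDedekindDomain.exists_sup_span_eq` (for `I * J ≤ I`) there is `a` with `I * J ⊔ (a) = I`. The map
`B → B / IJ`, `b ↦ a b`, has kernel `Q = {b | a b ∈ IJ}` and image `I / IJ`. `J ≤ Q` as `a ∈ I`, and
`I Q = (I J ⊔ (a)) Q ≤ I J`, hence `Q ≤ J` (cancel `I`, `Ideal.mul_le_mul_left` type lemma, or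
`Ideal.dvd_iff_le`). So `dim (I / IJ) = dim (B / J)` and `dim B / IJ = dim B / I + dim I / IJ`
(for instance `Submodule.finrank_quotient_add_finrank` and third isomorphism theorem). -/
def S_FQ : Prop := ∀ (B : Type) [CommRing B] [IsDedekindDomain B] [Algebra ℂ B],
  (∀ b : B, b ≠ 0 → Module.Finite ℂ (B ⧸ Ideal.span ({b} : Set B))) →
  ∀ I J : Ideal B, I ≠ ⊥ → J ≠ ⊥ → Module.Finite ℂ (B ⧸ I * J) ∧
    finrank ℂ (B ⧸ I * J) = finrank ℂ (B ⧸ I) + finrank ℂ (B ⧸ J)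

/-- **MU.** First properties of `mu`. PROOF. A finite-dimensional `V` is contained in some `fil i`
(generators; `fil_mono`), so `deg '' V` is bounded and nonempty (`deg 0 = 0`): the sup is attained
(`Nat.sSup_mem`), and it bounds the degrees. If `V ≠ ⊥` the sup is attained at a nonzero vector (if it
is attained at `0` then all degrees are `0`; take any nonzero vector). `fil i` is finite-dimensional
(`Module.finite_of_finrank_pos`). Product: `Ideal.span (V * W) = Ideal.span V * Ideal.span W`;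
`top (V * W) = top V + top W` (`≤`: the elements of `V * W` are sums of products `v w`, each in
`fil (top V + top W)` by `mul_mem`, i.e. `V * W ≤ fil (top V + top W)` by `Submodule.mul_le`; `≥`:
product of two nonzero elements of maximal degree); then `S_FQ` (the spans are not `⊥`; the
finiteness is `fin_quot`). Monotone: `top V ≤ top W`, and `B / span W` is a quotient of `B / span V`,
which is finite-dimensional as a quotient of `B / (v)`. Line: `top (ℂ s) = deg s` (`deg (c s) = deg s`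
for `c ≠ 0` because `c s ∈ fil i ↔ s ∈ fil i`), `Ideal.span (ℂ s) = (s)`, `finrank_quot`. -/
def S_Mu : Prop := ∀ (B : Type) [CommRing B] [IsDedekindDomain B] [Algebra ℂ B] (g : Gen1 B),
  (∀ i, Module.Finite ℂ (g.fil i)) ∧
  (∀ V : Submodule ℂ B, Module.Finite ℂ V → V ≠ ⊥ → ∃ v ∈ V, v ≠ 0 ∧ g.deg v = g.top V) ∧
  (∀ V : Submodule ℂ B, Module.Finite ℂ V → ∀ v ∈ V, g.deg v ≤ g.top V) ∧
  (∀ V W : Submodule ℂ B, Module.Finite ℂ V → Module.Finite ℂ W → V ≠ ⊥ → W ≠ ⊥ →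
    g.mu (V * W) = g.mu V + g.mu W) ∧
  (∀ V W : Submodule ℂ B, Module.Finite ℂ W → V ≠ ⊥ → V ≤ W → g.mu V ≤ g.mu W) ∧
  (∀ s : B, s ≠ 0 → g.mu (Submodule.span ℂ {s}) = 0)

/-- **DIM.** The genus one bound. PROOF. Put `I = Ideal.span V`, `c = finrank (B / I)` (finite: `I`
contains some `b ≠ 0`), `d = top V`, so `V ≤ fil d`. Let `e` be the smallest degree of a nonzero
element of `I` and `u ∈ I`, `u ≠ 0`, `deg u = e`. If `e = 0`: `u ∈ fil 0 = ℂ · 1`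
(`finrank_fil_zero`, `one_mem`) so `I = ⊤`, `c = 0`; `d ≥ 1` (else `V ≤ fil 0`, dimension 1) and
`finrank V ≤ finrank (fil d) = d`. Let `e ≥ 1`; in fact `e ≥ 2`, since `fil 0 = fil 1` (both of
dimension 1). `(u) ≤ I` so `c ≤ finrank (B / (u)) = e`. (i) If `c = e` then `I = (u)`; then
`V = u V'` with `V' ≤ fil (d - e)` (`deg_mul`), `finrank V' = finrank V ≥ 2`, so `d - e ≥ 2`
(`fil 1` has dimension 1) and `finrank V ≤ d - e = d - c`. (ii) If `c < e`: `I ⊓ fil (e - 1) = ⊥` by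
minimality, so `fil (e - 1) → B / I` is injective and `e - 1 ≤ c`; hence `c = e - 1`, the map is
bijective, `fil (e - 1) + I = B`, hence `fil d + I = B` (`d ≥ e`, since `V` contains a nonzero element
of `I` of degree `d`, or of degree `≤ d`). So `fil d / (I ⊓ fil d) ≅ B / I`, and
`finrank V ≤ finrank (I ⊓ fil d) = d - c`. The last claim: `V = ℂ s`, see `S_Mu`. -/
def S_Dim : Prop := ∀ (B : Type) [CommRing B] [IsDedekindDomain B] [Algebra ℂ B] (g : Gen1 B)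
  (V : Submodule ℂ B), Module.Finite ℂ V →
    (2 ≤ finrank ℂ V → (finrank ℂ V : ℤ) ≤ g.mu V) ∧ (finrank ℂ V = 1 → g.mu V = 0)

/-- **PENCIL.** PROOF. `I = Ideal.span V`. Take `s ∈ V`, `s ≠ 0`, of degree `top V`. The ideal `(s)` is
nonzero, so it is contained in finitely many maximal ideals `M` (`Ideal.finite_factors`, or: `B / (s)`
is finite-dimensional over `ℂ`, hence Artinian). For each of them `V_M = {v ∈ V | v ∈ M * I}` is a
proper subspace of `V` (otherwise `I ≤ M I`, and cancelling `I`, `M = ⊤`). As `ℂ` is infinite there is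
`t ∈ V` outside all the `V_M` (`Subspace.biUnion_ne_univ_of_top_notMem` or the like). Then
`(s, t) = I`: `(s, t) ≤ I` gives `(s, t) = I * J`; if `J ≠ ⊤` take `M ⊇ J` maximal; `s ∈ I M ≤ M`, so
`M` is one of the finitely many, and `t ∈ I M`, contradiction. So `V' = span {s, t}` has
`Ideal.span V' = I` and `top V' = top V` (it contains `s`), hence `mu V' = mu V`. It has dimension 2:
it is not zero, and if it had dimension `1` then `mu V' = 0`, but `mu V ≥ 2` by `S_Dim`. -/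
def S_Pencil : Prop := ∀ (B : Type) [CommRing B] [IsDedekindDomain B] [Algebra ℂ B] (g : Gen1 B)
  (V : Submodule ℂ B), Module.Finite ℂ V → 2 ≤ finrank ℂ V →
    ∃ s t : B, s ∈ V ∧ t ∈ V ∧ finrank ℂ (Submodule.span ℂ ({s, t} : Set B)) = 2 ∧
      g.mu (Submodule.span ℂ ({s, t} : Set B)) = g.mu V

/-- **KEY.** The base point free pencil trick. PROOF. Step: let `V, W ≠ ⊥` be finite-dimensional,
`finrank W = mu W`, `mu V + 1 ≤ mu W`. Then `finrank (V * W) = mu (V * W) = mu V + mu W`. Indeed if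
`finrank V = 1`, `V = ℂ s`, `V * W = s W` has the dimension of `W`, and `mu V = 0`. If
`finrank V ≥ 2` take `s, t` from `S_Pencil`; `V * W ⊇ s W + t W`, of dimension
`2 finrank W - finrank U`, where `U = {w ∈ W | s w ∈ t W}` (`s W ⊓ t W ≅ U`,
`Submodule.finrank_sup_add_finrank_inf_eq`). If `U ≠ ⊥`: `span {s, t} * U ≤ t W = span {t} * W`, so
`mu V + mu U ≤ mu W` (additivity, monotonicity, `mu (span {t}) = 0`). If `finrank U ≥ 2`,
`finrank U ≤ mu U ≤ mu W - mu V` by `S_Dim`; if `finrank U ≤ 1` also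
`finrank U ≤ 1 ≤ mu W - mu V`. So `finrank (V * W) ≥ 2 mu W - (mu W - mu V) = mu W + mu V`.
Conversely `mu V + mu W = mu (V * W) ≥ finrank (V * W)` by `S_Dim` (`finrank (V * W) ≥ 2` because
`mu W ≥ mu V + 1 ≥ 1`; `mu V ≥ 0` always; if `mu W = 1` then `finrank W = 1` and `mu W = 0`, absurd,
so `mu W ≥ 2`). Start: `fil c` has `mu (fil c) = c = finrank (fil c)` for `c ≥ 2`: `c ≤ mu (fil c)`
by `S_Dim`, and `mu (fil c) ≤ top (fil c) ≤ c`. Now induction on the list, `W = L.prod * fil c`,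
`mu W = ∑ mu + c`. (`mu V ≥ 0` for `V ≠ ⊥` by `S_Dim`.) -/
def S_Key : Prop := ∀ (B : Type) [CommRing B] [IsDedekindDomain B] [Algebra ℂ B] (g : Gen1 B)
  (c : ℕ), 2 ≤ c → ∀ L : List (Submodule ℂ B),
  (∀ V ∈ L, V ≠ ⊥ ∧ Module.Finite ℂ V ∧ g.mu V + 1 ≤ c) →
    (L.map g.mu).sum + (c : ℤ) ≤ (finrank ℂ (L.prod * g.fil c : Submodule ℂ B) : ℤ)

/-- **LEN.** Colength = sum of the codimensions of the spaces of leading coefficients. PROOF. For
`p ≤ N ^ 2` let `G p` be the subspace of the `a` with `cf k j a = 0` for all `k, j < N` with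
`k N + j < p`. `G 0 = ⊤`, `G (N ^ 2) ≤ I`. Let `L p = I + G p` (subspaces over `ℂ`): `L 0 = ⊤`,
`L (N ^ 2) = I`, decreasing. For `p = k N + j` (`k, j < N`):
`L p / L (p + 1) ≅ G p / (G p ∩ (I + G (p+1))) = G p / ((G p ∩ I) + G (p + 1))` (modular law), and
`cf k j : G p → fil (n j)` is onto (the element `b τ ^ j T ^ k`), with kernel `G (p + 1)`; so the
dimension is `finrank (fil (n j)) - finrank (cf k j (G p ∩ I))`. Finally
`cf k j (G p ∩ I) = VV I k j`: if `a ∈ G p ∩ I`, subtract from `a` its part outside the box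
`[0, N) ^ 2` (an element of `I` by `Near`): the new element is in `I ∩ FF k j` and has the same
coefficient at `(k, j)`; the other inclusion is clear. Sum over `p`. -/
def S_Len : Prop := ∀ (B : Type) [CommRing B] [IsDedekindDomain B] [Algebra ℂ B] (g : Gen1 B)
  (n N : ℕ) (I : Ideal (AR g n)), Near g n N I →
    Module.Finite ℂ (AR g n ⧸ I) ∧
    finrank ℂ (AR g n ⧸ I) = ∑ k ∈ Finset.range N, ∑ j ∈ Finset.range N,
      (finrank ℂ (g.fil (n * j)) - finrank ℂ (VV g n I k j))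

/-- **VMUL.** Calculus of leading coefficients. PROOF. (1) `cf k j a ∈ fil (n j)` (definition of `SR`).
(2) If `a ∈ FF k j`, `b ∈ FF k' j'` then `a b ∈ FF (k + k') (j + j')` and
`cf (k + k') (j + j') (a b) = cf k j a * cf k' j' b` (`cf K J (a b) = ∑ cf k₁ j₁ a * cf k₂ j₂ b` over
`k₁ + k₂ = K`, `j₁ + j₂ = J`). (3) multiply with the constant `b τ ^ c ∈ S ⊆ A`, `b ∈ fil (n c)`.
(4) multiply with `T` (`PowerSeries.X`). (5) the element `b τ ^ j T ^ k`, `b ∈ fil (n j)`, has its only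
coefficient outside of the box. (6) induction on the list from (2) (for the empty list: `1 ∈ ⊤`,
`VV ⊤ 0 0 ∋ 1`). (7) is clear. -/
def S_VMul : Prop := ∀ (B : Type) [CommRing B] [IsDedekindDomain B] [Algebra ℂ B] (g : Gen1 B)
  (n : ℕ),
  (∀ (I : Ideal (AR g n)) (k j : ℕ), VV g n I k j ≤ g.fil (n * j)) ∧
  (∀ (I I' : Ideal (AR g n)) (k j k' j' : ℕ),
    VV g n I k j * VV g n I' k' j' ≤ VV g n (I * I') (k + k') (j + j')) ∧
  (∀ (I : Ideal (AR g n)) (k j c : ℕ), g.fil (n * c) * VV g n I k j ≤ VV g n I k (j + c)) ∧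
  (∀ (I : Ideal (AR g n)) (k j : ℕ), VV g n I k j ≤ VV g n I (k + 1) j) ∧
  (∀ (N : ℕ) (I : Ideal (AR g n)), Near g n N I → ∀ k j, (N ≤ k ∨ N ≤ j) →
    VV g n I k j = g.fil (n * j)) ∧
  (∀ (I : Ideal (AR g n)) (L : List (ℕ × ℕ)),
    (L.map fun p => VV g n I p.1 p.2).prod ≤
      VV g n (I ^ L.length) (L.map Prod.fst).sum (L.map Prod.snd).sum) ∧
  (∀ (I I' : Ideal (AR g n)) (k j : ℕ), I ≤ I' → VV g n I k j ≤ VV g n I' k j)

/-- **NEAR.** The powers of an ideal with maximal radical are large, linearly. PROOF.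
(0) `fil i * fil i' = fil (i + i')` for `2 ≤ i < i'` (`S_Key` with the list `[fil i]`, `c = i'`:
`mu (fil i) = i`: `≥ i` by `S_Dim`, `≤ top (fil i) ≤ i`; and `fil i * fil i' ≤ fil (i + i')`). Hence
`fil (n j) = fil (2 n) * fil (n (j - 2))` for `j ≥ 5` (`2 n < n (j - 2)`), so for every `a` and every
`j ≥ 2 a + 3`: `fil (n j) = (fil (2 n)) ^ a * fil (n (j - 2 a))`.
(1) Let `e_1, …, e_r` be a basis of `fil (2 n)` and `E_i = e_i τ ^ 2 ∈ S ⊆ A`; `cf 0 0 E_i = 0`, so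
`E_i ^ s ∈ I` and `T ^ s ∈ I` for some `s ≥ 1` (the same `s` for all). Let `a = r s m`. A monomial of
degree `a` in the `E_i` has some exponents `≥ s ⌊x_i / s⌋` with `∑ ⌊x_i / s⌋ ≥ ∑ (x_i - s + 1) / s`,
i.e. `≥ (a - r (s - 1)) / s ≥ m`: it lies in `I ^ m`. (2) If `b ∈ S` has `coeff j b = 0` for all
`j < 2 a + 3` then `b ∈ ∑ (monomials of degree a in the E_i) S ⊆ I ^ m`: for each `j ≥ 2 a + 3` write
`coeff j b = ∑_e e · b_{j, e}`, `e` over the monomials of degree `a` in `e_1, …, e_r`,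
`b_{j, e} ∈ fil (n (j - 2 a))` by (0), and then `b = ∑_e (e τ ^ (2 a)) (∑_j b_{j, e} τ ^ (j - 2 a))`.
(3) If `C m ≥ 2 a + 3` and `C m ≥ s m` (`C = 2 r s + 3 + s` works) and `x ∈ A` has no coefficients in
the box then `x = ∑_{k < C m} T ^ k x_k + T ^ (C m) y` with `x_k ∈ S` without coefficients of degree
`< C m`: so `x_k ∈ I ^ m`; and `T ^ (C m) ∈ (T ^ s) ^ m A ⊆ I ^ m`. -/
def S_Near : Prop := ∀ (B : Type) [CommRing B] [IsDedekindDomain B] [Algebra ℂ B] (g : Gen1 B)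
  (n : ℕ), 1 ≤ n → ∀ I : Ideal (AR g n), (∀ a : AR g n, cf g n 0 0 a = 0 → a ∈ I.radical) →
    ∃ C : ℕ, 1 ≤ C ∧ ∀ m : ℕ, 1 ≤ m → Near g n (C * m) (I ^ m)

/-- **COMB.** The combinatorial inequality. PROOF. Put `G j q = 2 h j q` if `q ≠ 1`,
`G j 1 = h j 0 + h j (n j)` if `n j ≥ 2` and `G 1 1 = h 0 0 + h 2 2` if `n = 1`.
(a) For a point `P = (j, q)` with `q ≤ n j`, `j ≤ X + 1` and `a : ℕ` there is a list of `a` valid points
with first coordinates `≤ X + 2`, sum of the first coordinates `≤ a j`, the right hand side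
`∑ snd + n (a j - ∑ fst) ≥ a q`, and `2 ∑ h ≤ (a + 1) G P`: if `q ≠ 1`, `a` copies of `P`; if `q = 1`,
`n j ≥ 2`: `⌈a/2⌉` copies of `(j, n j)` and `⌊a/2⌋` copies of `(j, 0)`; if `q = 1`, `n = j = 1`:
`⌈a/2⌉` copies of `(0, 0)` and `⌊a/2⌋` copies of `(2, 2)`.
(b) Let `i < n` (index of a subcone) and put `G_i(a, b) = G (a + b) (i (a + b) + b)`. Let
`j = α + β`, `q = i j + β`, `α = m a + r`, `β = m b + s` with `r, s < m`, `j < X m` (so `a + b < X`).
If `r + s ≤ m`, `(j, q)` is the sum of `m - r - s`, `r`, `s` times the points `P_i(a, b)`,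
`P_i(a + 1, b)`, `P_i(a, b + 1)`, where `P_i(a, b) = (a + b, i (a + b) + b)`; if `r + s > m` it is the
sum of `r + s - m`, `m - r`, `m - s` times `P_i(a + 1, b + 1)`, `P_i(a, b + 1)`, `P_i(a + 1, b)`.
By (a) and the hypothesis on `H`, `2 H j q ≤ ∑ (a_l + 1) G(P_l)` over the three points.
(c) Sum over `r, s < m`: each of the six coefficient sums (for instance
`∑_{r + s ≤ m} (m - r - s + 1)`) is `≤ m ^ 3 / 6 + O(m ^ 2)`; so
`12 ∑_{r, s} H ≤ (m ^ 3 + K' m ^ 2) (G_i(a, b) + 2 G_i(a + 1, b) + 2 G_i(a, b + 1) + G_i(a + 1, b + 1))`.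
(d) Every `(j, q)` with `1 ≤ q ≤ n j` is of the form (b) for some `i < n`, `β ≥ 1`, `α ≥ 0`
(`i = (q - 1) / j`), so
`12 ∑_j ∑_q H j q ≤ (m ^ 3 + K' m ^ 2) ∑_{i < n} ∑_{a + b < X} (G_i(a, b) + 2 G_i(a + 1, b) + …)`, and the
double sum is `≤ ∑_i (G_i(0, 0) + 3 ∑_{a ≥ 1} G_i(a, 0) + 3 ∑_{b ≥ 1} G_i(0, b) + 6 ∑_{a, b ≥ 1} G_i(a, b))
= n G 0 0 + ∑_{j ≥ 1} (3 G j 0 + 6 ∑_{1 ≤ q < n j} G j q + 3 G j (n j))` (finite sums, `a + b ≤ X + 1`).
(e) For `n j ≥ 2` the term of `j` is `12 (h j 0 + ∑_{q = 2}^{n j} h j q)`. For `n ≥ 2` the rest is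
`n G 0 0 = 2 n h 0 0 ≤ 12 h 0 0`. For `n = 1` the rest is `2 h 0 0 + 3 · 2 h 1 0 + 3 (h 0 0 + h 2 2)
≤ 12 h 0 0 + 12 h 1 0`. The terms with `j ≥ J` vanish (`hz`), and the total is a constant, so the
`K' m ^ 2` term is absorbed in `K m ^ 2`. -/
def S_Comb : Prop := ∀ n : ℕ, 1 ≤ n → n ≤ 3 → ∀ (J X : ℕ) (h : ℕ → ℕ → ℕ),
  (∀ j q, J ≤ j → h j q = 0) → (n = 1 → h 2 2 ≤ h 0 0) →
  ∃ K : ℕ, ∀ m : ℕ, 1 ≤ m → ∀ H : ℕ → ℕ → ℕ,
  (∀ L : List (ℕ × ℕ), L.length = m → (∀ P ∈ L, Valid n P ∧ P.1 ≤ X + 2) → ∀ j q : ℕ,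
    (L.map Prod.fst).sum ≤ j → q ≤ (L.map Prod.snd).sum + n * (j - (L.map Prod.fst).sum) →
    H j q ≤ (L.map fun P => h P.1 P.2).sum) →
  ∑ j ∈ Finset.range (X * m), ∑ q ∈ Finset.Icc 1 (n * j), H j q ≤
    m ^ 3 * (h 0 0 + ∑ j ∈ Finset.Icc 1 J, (h j 0 + ∑ q ∈ Finset.Icc 2 (n * j), h j q)) + K * m ^ 2

/-- **ASM.** The upper bound. PROOF. Take `C` from `S_Near` and `N` with `Near N I` (`m = 1`).
Write `V k j = VV I k j`; it is increasing in `k`, contained in `fil (n j)`, equal to it for `k ≥ N` or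
`j ≥ N`. `mu (fil i) = i` for `i ≥ 2`, and `mu V ≥ 0` if `V ≠ ⊥` (`S_Dim`), `mu V = 0` or `mu V ≥ 2`.
For valid `(j, q)` let `h j q` be the least `k` with `V k j ≠ ⊥` and `q ≤ mu (V k j)` (it exists and is
`≤ N`: `V N j = fil (n j)`; it is `0` for `j ≥ N`); for other `(j, q)` let `h j q = 0`. If `n = 1`,
`h 2 2 ≤ h 0 0`: for `k = h 0 0`, `V k 0 = fil 0 ∋ 1` and `fil 2 ≤ fil 2 * V k 0 ≤ V k 2`.
(A) `h 0 0 + ∑_{j = 1}^{N} (h j 0 + ∑_{q = 2}^{n j} h j q) ≤ finrank (A / I)`: by `S_Len` it is enough to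
see, for `1 ≤ j` (`j < N`; the terms with `j ≥ N` are zero) and every `k < N`,
`[k < h j 0] + #{q ∈ [2, n j] | k < h j q} ≤ n j - finrank (V k j)`: if `V k j = ⊥` the left side is
`≤ 1 + (n j - 1)`; if `finrank = 1` it is `≤ n j - 1`; if `finrank ≥ 2`, `k ≥ h j 0`, and
`k < h j q` implies `q > mu (V k j) ≥ finrank (V k j)`, at most `n j - finrank` values. For `j = 0`:
`[k < h 0 0] ≤ 1 - finrank (V k 0)`.
(B) Let `X = C`, `c = X + 3`, `n c ≥ n (X + 2) + 1`. For `m ≥ 1` let `H j q` be the least `k ≤ C m` with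
`q + n c ≤ finrank (VV (I ^ m) k (j + c))`, and `C m` if there is none... (it exists for
`q ≤ n j`, because `VV (I ^ m) (C m) (j + c) = fil (n (j + c))`; for `q > n j` put `H j q = 0`).
Hypothesis of `S_Comb`: let `L` be a list of `m` valid points `P` with first coordinates `≤ X + 2`,
`∑ fst ≤ j`, `q ≤ ∑ snd + n (j - ∑ fst)`; `V_P = V (h P) P.1`, `V_P ≠ ⊥`, `P.2 ≤ mu V_P`,
`mu V_P + 1 ≤ mu (fil (n P.1)) + 1 ≤ n (X + 2) + 1 ≤ n c'` (or `mu = 0`), where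
`c' = c + (j - ∑ fst)`. By `S_Key` and `S_VMul` (list product, then multiplication with `fil (n c')`),
`∑ P.2 + n c' ≤ finrank (∏ V_P * fil (n c')) ≤ finrank (VV (I ^ m) (∑ h P) (j + c))`, and
`q + n c ≤ ∑ P.2 + n c'`. So `H j q ≤ ∑ h P`.
(C) `S_Len` for `I ^ m` with `N' = C m`: `finrank (A / I ^ m) = ∑_{k, j < C m} codim`. The part `j < c` is
`≤ c · C m · (n c + 1)`. For `j = j' + c`: `codim ≤ n c + #{q ∈ [1, n j'] | k < H j' q}` (if
`q + n c ≤ finrank (VV (I ^ m) k (j' + c))` then `H j' q ≤ k` ). Sum over `k < C m`: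
`≤ n c · C m + ∑_{q = 1}^{n j'} H j' q`. Sum over `j' < C m` and apply `S_Comb` and (A). -/
def S_Asm : Prop := S_Mu → S_Dim → S_Key → S_Len → S_VMul → S_Near → S_Comb →
  ∀ (B : Type) [CommRing B] [IsDedekindDomain B] [Algebra ℂ B] (g : Gen1 B) (n : ℕ),
  1 ≤ n → n ≤ 3 → ∀ I : Ideal (AR g n), (∀ a : AR g n, cf g n 0 0 a = 0 → a ∈ I.radical) →
    Module.Finite ℂ (AR g n ⧸ I) ∧ (∀ m, Module.Finite ℂ (AR g n ⧸ I ^ m)) ∧
    ∃ K : ℕ, ∀ m : ℕ, 1 ≤ m →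
      finrank ℂ (AR g n ⧸ I ^ m) ≤ m ^ 3 * finrank ℂ (AR g n ⧸ I) + K * m ^ 2

/-- **LOW.** The ideals for the lower bound. PROOF. `IN = {a | cf k j a = 0 for all k + j < N}` is an
ideal (convolution formula). `A / IN` has dimension `∑_{k + j < N} finrank (fil (n j))` (the map
`a ↦ (cf k j a)_{k + j < N}` to the product of the `fil (n j)` is onto with kernel `IN`), i.e.
`∑_{k < N} (1 + ∑_{1 ≤ j < N - k} n j) = N + n (N ^ 3 - N) / 6`. If `cf 0 0 a = 0` then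
`a ^ N ∈ IN` (all coefficients of `a ^ N` with `k + j < N` are zero). `IN ^ m ≤ I_{N m}`, so
`finrank (A / IN ^ m) ≥ finrank (A / I_{N m})` provided that `A / IN ^ m` is finite-dimensional; the
statement avoids this: it only gives the family of ideals. -/
def S_Low : Prop := ∀ (B : Type) [CommRing B] [IsDedekindDomain B] [Algebra ℂ B] (g : Gen1 B)
  (n : ℕ), 1 ≤ n → ∃ IN : ℕ → Ideal (AR g n),
    (∀ N, ∀ a : AR g n, cf g n 0 0 a = 0 → a ∈ (IN N).radical) ∧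
    (∀ N, 1 ≤ N → IN N ≠ ⊤) ∧
    (∀ N m, (IN N) ^ m ≤ IN (N * m)) ∧
    (∀ N, Module.Finite ℂ (AR g n ⧸ IN N)) ∧
    (∀ N, 6 * finrank ℂ (AR g n ⧸ IN N) + n * N = n * N ^ 3 + 6 * N)

/-- **ELL.** The ring of functions on an elliptic curve minus a point is of genus one. PROOF. Put
`deg b = natDegree (Algebra.norm ℂ[X] b)`. Multiplicative: `Algebra.norm` is, and it does not vanish
on nonzero elements (domain). `CoordinateRing.degree_norm_smul_basis` (Mathlib, Affine/Point.lean)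
gives `deg (p + q y) = max (2 deg p) (2 deg q + 3)` (with `degree`, so with `⊥` for zero). `fil i` is
the set of the `b` with `deg b ≤ i`; by the formula it is the span of `x ^ a` (`2 a ≤ i`) and
`x ^ a y` (`2 a + 3 ≤ i`), which are linearly independent over `ℂ`
(`CoordinateRing.basis`), `(i / 2 + 1) + ((i - 3) / 2 + 1) = i` of them for `i ≥ 3`; `1` for
`i = 0, 1`; `2` for `i = 2`. `finrank_quot`: `finrank_quotient_span_eq_natDegree_norm` (Mathlib);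
finiteness of `B / (b)`: quotient of `B / (norm b)`, `B` finite over `ℂ[X]` and `ℂ[X] / (norm b)`
finite-dimensional. -/
def S_Ell : Prop := ∀ A B : ℂ, 4 * A ^ 3 + 27 * B ^ 2 ≠ 0 → ∃ g : Gen1 (RR A B), ∀ i,
  g.fil i = Submodule.span ℂ
    ({b | ∃ a : ℕ, 2 * a ≤ i ∧ b = (algebraMap (Polynomial ℂ) (RR A B) Polynomial.X) ^ a} ∪
     {b | ∃ a : ℕ, 2 * a + 3 ≤ i ∧
      b = (algebraMap (Polynomial ℂ) (RR A B) Polynomial.X) ^ a * yy A B})

/-- the three types of gradings -/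
def Grad (n d : ℕ) (w : Fin 3 → ℕ) : Prop :=
  (n = 1 ∧ w = ![3, 2, 1] ∧ d = 6) ∨ (n = 2 ∧ w = ![2, 1, 1] ∧ d = 4) ∨
    (n = 3 ∧ w = ![1, 1, 1] ∧ d = 3)

/-- **COUNT.** The number of monomials. PROOF. `d = 2 w 0` (resp. `3 w 0`, for `n = 3`). The exponents
`e` of weight `j` with `e 0 ≥ 2` (resp. `≥ 3`) correspond to the exponents of weight `j - d`; those
with `e 0 = a < 2` (resp. `3`): for weights `(3, 2, 1)` there are `⌊(j - 3 a) / 2⌋ + 1` of them if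
`3 a ≤ j`, in all `j` for `j ≥ 1`; for `(2, 1, 1)`: `(j + 1) + (j - 1) = 2 j`; for `(1, 1, 1)`:
`(j + 1) + j + (j - 1) = 3 j`. (Set `d ≤ j` apart from `j < d`.) -/
def S_Count : Prop := ∀ (n d : ℕ) (w : Fin 3 → ℕ), Grad n d w → ∀ j : ℕ, 1 ≤ j →
  Set.ncard {e : Fin 3 →₀ ℕ | Finsupp.weight w e = j} =
    n * j + (if d ≤ j then Set.ncard {e : Fin 3 →₀ ℕ | Finsupp.weight w e = j - d} else 0)

/-- **ISO.** The graded description of `R_f`. PROOF. Let `P_j` be the space of weighted homogeneous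
polynomials of degree `j` (`MvPolynomial.weightedHomogeneousSubmodule`), of dimension the number of
exponents of weight `j` (`weightedHomogeneousSubmodule_eq_finsupp_supported`), finite because the
weights are positive. `aeval ξ : P_j → fil (n j)` is onto by the last hypothesis (and maps there, by
`mul_mem`), and its kernel contains `f P_{j - d}` (`0` if `j < d`), of the same dimension by `S_Count`
(`f ≠ 0`, domain; `finrank (fil (n j)) = n j` for `j ≥ 1`; `j = 0`: both are constants): so the kernel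
is `f P_{j - d}`. For a power series `s` let `s_j` be the polynomial of its terms of weight `j`, and
`Φ s = ∑ aeval ξ (s_j) τ ^ j ∈ SR g n`. It is a ring homomorphism (`(s t)_j = ∑ s_a t_b`), onto (choose
for each `j` a polynomial in `P_j`; they are the components of one power series), and `Φ s = 0` iff
all `s_j ∈ f P_{j - d}`, iff `s = f t` with `t = ∑ t_{j - d}`. So `Φ` induces the isomorphism
(`Ideal.quotientKerAlgEquivOfSurjective`). -/
def S_Iso : Prop := ∀ (B : Type) [CommRing B] [IsDomain B] [Algebra ℂ B] (g : Gen1 B)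
  (n d : ℕ) (w : Fin 3 → ℕ) (ξ : Fin 3 → B) (f : MvPolynomial (Fin 3) ℂ), Grad n d w → f ≠ 0 →
  f.IsWeightedHomogeneous w d → (∀ i, ξ i ∈ g.fil (n * w i)) → MvPolynomial.aeval ξ f = 0 →
  (∀ j : ℕ, ∀ b ∈ g.fil (n * j), ∃ p : MvPolynomial (Fin 3) ℂ, p.IsWeightedHomogeneous w j ∧
    MvPolynomial.aeval ξ p = b) → Nonempty (Rf f ≃ₐ[ℂ] SR g n)

open MvPolynomial (X C) in
/-- `X_{1,0}` -/
noncomputable def fX (l : ℂ) : MvPolynomial (Fin 3) ℂ :=
  X 0 ^ 2 + X 1 ^ 4 + X 2 ^ 4 + C l * X 0 * X 1 * X 2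

open MvPolynomial (X C) in
/-- `J_{2,0}` -/
noncomputable def fJ (l : ℂ) : MvPolynomial (Fin 3) ℂ :=
  X 0 ^ 2 + X 1 ^ 3 + X 2 ^ 6 + C l * X 0 * X 1 * X 2

open MvPolynomial (X C) in
/-- `T_{3,3,3}` -/
noncomputable def fT (l : ℂ) : MvPolynomial (Fin 3) ℂ :=
  X 0 ^ 3 + X 1 ^ 3 + X 2 ^ 3 + C l * X 0 * X 1 * X 2

/-- the hypothesis of the family jobs -/
def FamOK (f : MvPolynomial (Fin 3) ℂ) (n : ℕ) : Prop :=
  ∃ A B : ℂ, 4 * A ^ 3 + 27 * B ^ 2 ≠ 0 ∧ ∃ g : Gen1 (RR A B), Nonempty (Rf f ≃ₐ[ℂ] SR g n)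

/-- **FAMJ.** PROOF. `m = l ^ 2 / 12`, `A = - 3 m ^ 2`, `B = 2 m ^ 3 - 1`,
`4 A ^ 3 + 27 B ^ 2 = 27 (1 - 4 m ^ 3) = 27 - l ^ 6 / 16 ≠ 0`. `n = 1`, weights `(3, 2, 1)`, `d = 6`,
`ξ 2 = 1`, `ξ 1 = m - x`, `ξ 0 = y - (l / 2) ξ 1`: `f (ξ) = y ^ 2 + ξ_1 ^ 3 - 3 m ξ_1 ^ 2 + 1
= y ^ 2 - (x ^ 3 + A x + B) = 0`. Surjectivity on the generators of `fil j` (`S_Ell`):
`x ^ a`, `2 a ≤ j`, is the value of `(m Z ^ 2 - Y) ^ a Z ^ (j - 2 a)`, and `x ^ a y`, `2 a + 3 ≤ j`, of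
`(m Z ^ 2 - Y) ^ a (X + (l / 2) Y Z) Z ^ (j - 2 a - 3)`. -/
def S_FamJ : Prop := S_Ell → S_Iso → ∀ l : ℂ, l ^ 6 ≠ 432 → FamOK (fJ l) 1

/-- **FAMX.** PROOF. Let `r` be a root of `r ^ 4 - (l ^ 2 / 4) r ^ 2 + 1 = 0` (so `r ≠ 0`) and
`c = 4 r ^ 3 - (l ^ 2 / 2) r = 2 r (2 r ^ 2 - l ^ 2 / 4)`; `c ≠ 0` because `l ^ 4 ≠ 64`
(`2 r ^ 2 = l ^ 2 / 4` gives `r ^ 4 = 1`, `(l ^ 2 / 8) ^ 2 = 1`). With `W = Y - r Z`:
`Y ^ 4 + Z ^ 4 - (l ^ 2 / 4) Y ^ 2 Z ^ 2 = W (c Z ^ 3 + (6 r ^ 2 - l ^ 2 / 4) Z ^ 2 W + 4 r Z W ^ 2 + W ^ 3)`,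
and `f = (X + (l / 2) Y Z) ^ 2 + ` this. So, with `W = 1`, `Z = - c x'`, `X + (l / 2) Y Z = c ^ 2 y`:
`y ^ 2 = x' ^ 3 - ((6 r ^ 2 - l ^ 2 / 4) / c ^ 2) x' ^ 2 + (4 r / c ^ 3) x' - 1 / c ^ 4`. Put
`x' = x + t`, `3 t = (6 r ^ 2 - l ^ 2 / 4) / c ^ 2`, to get `y ^ 2 = x ^ 3 + A x + B`. Then
`4 A ^ 3 + 27 B ^ 2` is a nonzero constant times `(l ^ 4 - 64) ^ 2 / c ^ 12` or so (compute with
`l ^ 2 = 4 (r ^ 4 + 1) / r ^ 2`, i.e. `c = 2 r (r ^ 4 - 1) / r ^ 2 = 2 (r ^ 4 - 1) / r`; everything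
becomes a rational function of `r`), nonzero. `n = 2`, weights `(2, 1, 1)`, `d = 4`:
`ξ 2 = - c (x + t)`, `ξ 1 = 1 + r ξ 2`, `ξ 0 = c ^ 2 y - (l / 2) ξ 1 ξ 2`. Surjectivity on the generators
of `fil (2 j)`: `x` is the value of the linear form `L = - Z / c - t W`, `W = Y - r Z` has the value `1`,
`y` is the value of `Q = c ^ (-2) (X + (l / 2) Y Z)`; `x ^ a`, `a ≤ j`: `L ^ a W ^ (j - a)`; `x ^ a y`,
`2 a + 3 ≤ 2 j`, i.e. `a + 2 ≤ j`: `L ^ a Q W ^ (j - a - 2)`. -/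
def S_FamX : Prop := S_Ell → S_Iso → ∀ l : ℂ, l ^ 4 ≠ 64 → FamOK (fX l) 2

/-- **FAMT.** PROOF. With `p = X + Y`, `q = X - Y`, `W = 3 p - l Z`:
`f = W q ^ 2 / 4 + (p ^ 3 + l Z p ^ 2) / 4 + Z ^ 3` and `p = (W + l Z) / 3`; so with `W = 1`:
`q ^ 2 = - (1 / 27) (1 + 3 l Z) ^ 2 - κ Z ^ 3`, `κ = (4 / 27) (l ^ 3 + 27) ≠ 0`. (Check:
`(1 + l Z) ^ 3 + 3 l Z (1 + l Z) ^ 2 + 108 Z ^ 3 = 1 + 6 l Z + 9 l ^ 2 Z ^ 2 + (4 l ^ 3 + 108) Z ^ 3`.)
With `Z = - κ x'`, `q = κ ^ 2 y`: `y ^ 2 = x' ^ 3 - (1 - 3 l κ x') ^ 2 / (27 κ ^ 4)`; shift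
`x' = x + t`, `3 t = 9 l ^ 2 κ ^ 2 / (27 κ ^ 4) = l ^ 2 / (3 κ ^ 2)`, to get `y ^ 2 = x ^ 3 + A x + B`;
`4 A ^ 3 + 27 B ^ 2` is a nonzero multiple of a power of `κ` (or `κ⁻¹`) (use `l ^ 3 = 27 κ / 4 - 27`).
`n = 3`, weights `(1, 1, 1)`, `d = 3`: `ξ 2 = - κ (x + t)`, `p = (1 + l ξ 2) / 3`, `q = κ ^ 2 y`,
`ξ 0 = (p + q) / 2`, `ξ 1 = (p - q) / 2`. So `1`, `x`, `y` are values of linear forms. Surjectivity on
`fil (3 j)`: it is spanned by the `x ^ a y ^ b` with `2 a + 3 b ≤ 3 j`, `b ≤ 1`; all `x ^ a y ^ b` with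
`2 a + 3 b ≤ 3 j` are values of forms of degree `j`: if `a ≤ 2` then `a + b ≤ j` (clear); if `a ≥ 3`,
`x ^ a y ^ b = x ^ (a - 3) y ^ (b + 2) - A x ^ (a - 2) y ^ b - B x ^ (a - 3) y ^ b`, induction on `a`. -/
def S_FamT : Prop := S_Ell → S_Iso → ∀ l : ℂ, l ^ 3 ≠ -27 → FamOK (fT l) 3

/-- **KLOW.** PROOF. The ring homomorphism `θ : SR g n → ℂ[[τ]]`, `∑ b_j τ ^ j ↦ ∑ ev b_j τ ^ j`, and
`SR g n → ℂ`, `b ↦ ev b_0`, have prime kernels `P ≤ M`. `P ≠ ⊥`: there is `b ∈ fil (2 n)`, `b ≠ 0`,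
`ev b = 0` (`finrank (fil (2 n)) = 2 n ≥ 2`), and `b τ ^ 2 ∈ P`. `P ≠ M`: `τ ∈ M` (`1 ∈ fil n`),
`θ τ = τ ≠ 0`. `SR g n` is a domain, so `⊥ < P < M` is a chain of primes. -/
def S_KLow : Prop := ∀ (B : Type) [CommRing B] [IsDomain B] [Algebra ℂ B] (g : Gen1 B) (n : ℕ),
  1 ≤ n → (B →ₐ[ℂ] ℂ) → 2 ≤ ringKrullDim (SR g n)

/-- **KUP.** PROOF. `R = Rf f` is a quotient of `MvPowerSeries (Fin 3) ℂ`, Noetherian (instance in
Mathlib) and local, and so is `R[[T]]`. Its maximal ideal `M` (the elements with constant coefficient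
zero) satisfies `x ^ a ∈ (y, z, T)` with `a = 2` or `3`, because `f = x ^ a + y (…) + z (…)`, so
`M ^ 4 ≤ (y, z, T) ≤ M` (`M = (x, y, z, T)`), so `M` is a minimal prime of the ideal `(y, z, T)` with
three generators; Krull's height theorem (`Ideal.height_le_spanRank_toENat_of_mem_minimal_primes`
or `Ideal.height_le_spanFinrank`), and `ringKrullDim` of a local ring is the height of its maximal
ideal (`IsLocalRing.maximalIdeal_height_eq_ringKrullDim`). -/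
def S_KUp : Prop := ∀ l : ℂ, ringKrullDim (PowerSeries (Rf (fX l))) ≤ 3 ∧
  ringKrullDim (PowerSeries (Rf (fJ l))) ≤ 3 ∧ ringKrullDim (PowerSeries (Rf (fT l))) ≤ 3

/-- **LOC.** PROOF. `Rf f` is a nonzero quotient of the local ring `MvPowerSeries (Fin 3) ℂ` (`f` has
constant term `0`, so it is not a unit), hence local; power series over a local ring form a local
ring. The residue field: an element `a` of `PowerSeries (Rf f)` which is not a unit has constant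
coefficient the class of a series without constant term; so every element is a scalar plus a
nonunit. -/
def S_Loc : Prop := ∀ f : MvPolynomial (Fin 3) ℂ, f.coeff 0 = 0 →
  IsLocalRing (PowerSeries (Rf f)) ∧ ∀ a : PowerSeries (Rf f), ∃ z : ℂ,
    ¬ IsUnit (a - algebraMap ℂ (PowerSeries (Rf f)) z)

/-- **LFN.** PROOF. `IsLocalRing.length_restrictScalars` (Mathlib, `RingTheory/LocalRing/Length.lean`)
for `ℂ → A`, with `ResidueField A` one-dimensional over `ResidueField ℂ` by the hypothesis. -/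
def S_Lfn : Prop := ∀ (A : Type) [CommRing A] [IsLocalRing A] [Algebra ℂ A],
  (∀ a : A, ∃ z : ℂ, ¬ IsUnit (a - algebraMap ℂ A z)) → ∀ I : Ideal A,
    Module.length A (A ⧸ I) = Module.length ℂ (A ⧸ I)

end Pool.Agent.Q55.LM
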